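import Pool.Agent.X102.UP4

/-!
# `c₀` has an equivalent norm with uniform property (S) (MP_c793c5_an, Q1: yes)

`c₀` is Mathlib's `C₀(ℕ, ℝ)`: real sequences tending to `0`, with the supremum norm `‖x‖`.
-/

namespace Pool.Agent.Results.MP_c793c5_an.UniformSNorm

open scoped ZeroAtInfty

/-- `N` is an equivalent norm on `c₀`. -/
structure IsEquivNorm (N : C₀(ℕ, ℝ) → ℝ) : Prop where
  add_le : ∀ x y, N (x + y) ≤ N x + N y
  smul : ∀ (s : ℝ) (x : C₀(ℕ, ℝ)), N (s • x) = |s| * N x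
  equiv : ∃ c C : ℝ, 0 < c ∧ ∀ x, c * ‖x‖ ≤ N x ∧ N x ≤ C * ‖x‖

/-- `U_X(x, y; a) = sup {|N (x + z) - N (y + z)| : N z ≤ a}`. -/
noncomputable def UPair (N : C₀(ℕ, ℝ) → ℝ) (x y : C₀(ℕ, ℝ)) (a : ℝ) : ℝ :=
  ⨆ z : {z : C₀(ℕ, ℝ) // N z ≤ a}, |N (x + z.1) - N (y + z.1)|

/-- `U_X(d; a) = inf {U_X(x, y; a) : N x = N y = 1, N (x - y) ≥ d}`. -/
noncomputable def UConst (N : C₀(ℕ, ℝ) → ℝ) (d a : ℝ) : ℝ :=
  ⨅ q : {q : C₀(ℕ, ℝ) × C₀(ℕ, ℝ) // N q.1 = 1 ∧ N q.2 = 1 ∧ d ≤ N (q.1 - q.2)},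
    UPair N q.1.1 q.1.2 a

/-- Uniform property (S): `U_X(d; a) > 0` for all `0 < d < 2` and all `a > 0`. -/
def HasUniformS (N : C₀(ℕ, ℝ) → ℝ) : Prop :=
  ∀ d a : ℝ, 0 < d → d < 2 → 0 < a → 0 < UConst N d a

open Pool.Agent.X102.UPS in
theorem result : ∃ N : C₀(ℕ, ℝ) → ℝ, IsEquivNorm N ∧ HasUniformS N := by
  refine ⟨NN, ⟨NN_add, NN_smul, 1, CN, one_pos, fun x => ⟨by rw [one_mul]; exact le_NN x,
    NN_le x⟩⟩, ?_⟩
  intro d a hd hd2 ha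
  obtain ⟨u, hu, h⟩ := main hd ha
  -- a unit vector
  obtain ⟨e, he⟩ : ∃ e : C₀(ℕ, ℝ), NN e = 1 := by
    let v : C₀(ℕ, ℝ) := ofFin (fun n => if n = 0 then 1 else 0) (by
      refine (Set.finite_singleton 0).subset ?_
      intro k hk
      by_contra hk0
      apply hk
      exact if_neg hk0)
    have hv0 : 0 < NN v := by
      refine lt_of_lt_of_le ?_ (le_NN v)
      refine lt_of_lt_of_le ?_ (abs_le_norm v 0)
      show (0 : ℝ) < |if (0 : ℕ) = 0 then (1 : ℝ) else 0|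
      simp
    refine ⟨(NN v)⁻¹ • v, ?_⟩
    rw [NN_smul, abs_of_pos (by positivity), inv_mul_cancel₀ hv0.ne']
  have hne : Nonempty {q : C₀(ℕ, ℝ) × C₀(ℕ, ℝ) //
      NN q.1 = 1 ∧ NN q.2 = 1 ∧ d ≤ NN (q.1 - q.2)} := by
    refine ⟨⟨(e, -e), he, by rw [NN_neg]; exact he, ?_⟩⟩
    have e2 : e - -e = (2 : ℝ) • e := by
      ext n
      show e n - -(e n) = 2 * e n
      ring
    show d ≤ NN (e - -e)
    rw [e2, NN_smul, he, abs_of_pos (by norm_num : (0:ℝ) < 2)]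
    linarith
  refine lt_of_lt_of_le hu ?_
  apply le_ciInf
  rintro ⟨⟨x, y⟩, hx, hy, hxy⟩
  obtain ⟨z, hz, hz'⟩ := h x y hx hy hxy
  have hbdd : BddAbove (Set.range fun z : {z : C₀(ℕ, ℝ) // NN z ≤ a} =>
      |NN (x + z.1) - NN (y + z.1)|) := by
    refine ⟨NN (x - y), ?_⟩
    rintro _ ⟨z, rfl⟩
    have h1 : NN (x + z.1) ≤ NN (x - y) + NN (y + z.1) := by
      have := NN_add (x - y) (y + z.1)
      have e1 : x - y + (y + z.1) = x + z.1 := by abel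
      rwa [e1] at this
    have h2 : NN (y + z.1) ≤ NN (x - y) + NN (x + z.1) := by
      have := NN_add (-(x - y)) (x + z.1)
      have e1 : -(x - y) + (x + z.1) = y + z.1 := by abel
      rwa [e1, NN_neg] at this
    show |NN (x + z.1) - NN (y + z.1)| ≤ NN (x - y)
    rw [abs_le]
    constructor <;> linarith
  exact hz'.trans (le_ciSup hbdd ⟨z, hz⟩)

end Pool.Agent.Results.MP_c793c5_an.UniformSNorm
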